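import Pool.Agent.H482R3.EA.Stm

set_option autoImplicit false

/-! Project EA: STL (helper844). -/

namespace Pool.Agent.Helper844.EA

open Pool.Agent.H482R3.EA
open Pool.Agent.H482R3.EA.NF

theorem t_STL (hR : S_REP) (_hU : S_UNI) (hN : S_UPN) (hM : S_UPM) (hAN : S_ACTN) : S_STL := by
  intro S h l y _ hD
  constructor
  · intro hno hy
    rw [hAN S h l y hD, hN S h l y hno]
    unfold att
    have h1 : y ≠ 1 := by
      obtain ⟨r, hr⟩ := S.Λ0 l
      have := hy r 0 hr
      rwa [zpow_zero] at this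
    have h2 : ¬ ∃ (s : S.P) (c : ℤ), S.I s l ∧ y = S.x l s ^ c := by
      rintro ⟨s, c, hs, hc⟩
      exact hy s c hs hc
    rw [if_neg h1, dif_neg h2]
    rfl
  · intro q hq hnear hy
    have hm : ∃ m, InD S m (st h) ∧ S.I q m := by
      generalize hs : st h = s at hnear
      cases s with
      | none => exact absurd hnear (by simp [Near])
      | ln m => exact ⟨m, rfl, hnear⟩
      | pt r =>
        obtain ⟨m, h1, h2⟩ := hnear
        exact ⟨m, h1, h2⟩
    obtain ⟨m, hm1, hm2⟩ := hm
    rw [hAN S h l y hD, hM S h l y q m hD hq hnear hm1 hm2]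
    obtain ⟨e1, -, -, e4, -⟩ := hR S l q hq y
    have h1 : ¬ rep S l q y = 1 := by
      intro h1
      obtain ⟨a, ha⟩ := e4.1 h1
      refine hy q a 0 hq ?_
      rw [zpow_zero, mul_one]
      exact ha
    have h2 : ¬ ∃ (s : S.P) (b c : ℤ), S.I s l ∧ s ≠ q ∧
        rep S l q y = S.x l q ^ b * S.x l s ^ c := by
      rintro ⟨s, b, c, hs, -, hc⟩
      refine hy s (cf S l q y + b) c hs ?_
      rw [zpow_add, mul_assoc, ← hc]
      exact e1
    unfold attM
    simp only []
    rw [if_neg h1, dif_neg h2]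
    rfl

end Pool.Agent.Helper844.EA
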